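import Pool.Agent.Helper430_GC.Anal
import Pool.Agent.Helper430_GC.Trans

set_option autoImplicit false
set_option linter.all false

open MeasureTheory Filter Topology

namespace Pool.Agent.Results.MP_29e17e_pr.DerivLower

open Pool.Agent.Helper430_GC

/-- With `θ` and `pc` exactly as in the posed question, for every `η > 0` with
`p = pc * (1 + η) < 1` one has `(e - 1) * θ p * (1 - p) ≥ e * (1 - θ p) * η`; hence the constant `c`
of the question, if it exists, is at least `e / ((e - 1) * (1 - pc))`. -/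
theorem result :
  ∀ d : ℕ,
  ∀ θ : ℝ → ℝ, (∀ p : ℝ, θ p = ⨅ N : ℕ,
      ((Measure.pi (fun _ : (Fin d → Fin (2 * N + 1)) × Fin d =>
          (Real.toNNReal p • Measure.dirac true + Real.toNNReal (1 - p) • Measure.dirac false : Measure Bool)))
        {ω | ∃ x y : Fin d → Fin (2 * N + 1), (∀ i, (x i : ℕ) = N) ∧
          (SimpleGraph.fromRel (fun a b : Fin d → Fin (2 * N + 1) =>
              ∃ i, ω (a, i) = true ∧ (b i : ℕ) = (a i : ℕ) + 1 ∧ ∀ j, j ≠ i → b j = a j)).Reachable x y ∧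
          ∃ i, (y i : ℕ) = 0 ∨ (y i : ℕ) = 2 * N}).toReal) →
  ∀ pc : ℝ, pc = sSup {p : ℝ | 0 ≤ p ∧ p ≤ 1 ∧ θ p = 0} →
  (∀ η : ℝ, 0 < η → pc * (1 + η) < 1 →
    Real.exp 1 * ((1 - θ (pc * (1 + η))) * η) ≤
      (Real.exp 1 - 1) * (θ (pc * (1 + η)) * (1 - pc * (1 + η)))) ∧
  (pc < 1 → ∀ c : ℝ, Tendsto (fun η : ℝ => θ (pc * (1 + η)) / η) (𝓝[>] 0) (𝓝 c) →
    Real.exp 1 / ((Real.exp 1 - 1) * (1 - pc)) ≤ c) := by
  intro d θ hθ pc hpc
  have hti : ∀ p, 0 ≤ p → p ≤ 1 → θ p = ti d p := by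
    intro p h0 h1
    rw [hθ p]
    unfold ti
    congr 1
    funext N
    exact box_prob N h0 h1
  set A : Set ℝ := {p : ℝ | 0 ≤ p ∧ p ≤ 1 ∧ θ p = 0} with hA
  have hAb : BddAbove A := ⟨1, fun p hp => hp.2.1⟩
  -- the critical value is positive
  have hpc0 : 0 < pc := by
    set C := (bd gz (Eb d 1) ({0} : Finset (Fin d → ℤ))).card with hC
    have hq0 : (0 : ℝ) < 1 / ((C : ℝ) + 1) := by positivity
    have hq1 : 1 / ((C : ℝ) + 1) ≤ 1 := by
      rw [div_le_one (by positivity)]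
      have : (0 : ℝ) ≤ C := Nat.cast_nonneg C
      linarith
    have hz : ti d (1 / ((C : ℝ) + 1)) = 0 := by
      by_contra hne
      have hpos : 0 < ti d (1 / ((C : ℝ) + 1)) :=
        lt_of_le_of_ne (ti_nonneg hq0.le hq1) (Ne.symm hne)
      have h1 := phi_ge (N := 1) (S := ({0} : Finset (Fin d → ℤ))) (by
        intro x hx
        rw [Finset.mem_singleton] at hx
        subst hx
        rintro ⟨i, hi⟩
        simp at hi) (Finset.mem_singleton_self _) hq0 hq1 hpos
      have h2 : ph d 1 ({0} : Finset (Fin d → ℤ)) (1 / ((C : ℝ) + 1)) ≤ C := by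
        unfold ph
        refine (Finset.sum_le_sum (g := fun _ => (1 : ℝ)) fun z _ =>
          Ex_le_one hq0.le hq1 fun T _ => ind_le1 _).trans ?_
        rw [Finset.sum_const, nsmul_eq_mul, mul_one]
      rw [one_div_one_div] at h1
      linarith
    have hmem : 1 / ((C : ℝ) + 1) ∈ A := ⟨hq0.le, hq1, by rw [hti _ hq0.le hq1]; exact hz⟩
    have := le_csSup hAb hmem
    rw [← hpc] at this
    linarith
  have hpos : ∀ p, pc < p → p ≤ 1 → 0 < ti d p := by
    intro p hp hp1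
    have hp0 : 0 ≤ p := (hpc0.trans hp).le
    refine lt_of_le_of_ne (ti_nonneg hp0 hp1) fun h => ?_
    have hmem : p ∈ A := ⟨hp0, hp1, by rw [hti _ hp0 hp1]; exact h.symm⟩
    have := le_csSup hAb hmem
    rw [← hpc] at this
    linarith
  have main : ∀ η : ℝ, 0 < η → pc * (1 + η) < 1 →
      Real.exp 1 * ((1 - θ (pc * (1 + η))) * η) ≤
        (Real.exp 1 - 1) * (θ (pc * (1 + η)) * (1 - pc * (1 + η))) := by
    intro η hη hη1
    have hgt : pc < pc * (1 + η) := by nlinarith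
    have h1 := const_e (θ := ti d) (pc := pc) hpc0 (fun q p => ti_mono) (fun p => ti_nonneg)
      (fun p => ti_le_one) hpos (fun p α h0 h1 h2 h3 n h4 => key h0 h1 h2 h3 n h4) hgt hη1
    rw [← hti _ (hpc0.trans hgt).le hη1.le] at h1
    have h2 : pc * (1 + η) - pc = pc * η := by ring
    rw [h2] at h1
    have h3 : pc * (Real.exp 1 * ((1 - θ (pc * (1 + η))) * η)) ≤
        pc * ((Real.exp 1 - 1) * (θ (pc * (1 + η)) * (1 - pc * (1 + η)))) := by
      nlinarith
    exact le_of_mul_le_mul_left h3 hpc0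
  refine ⟨main, ?_⟩
  intro hpc1 c hc
  have he : 1 < Real.exp 1 := by
    have := Real.add_one_lt_exp (x := 1) (by norm_num)
    linarith
  have h0 : Tendsto (fun η : ℝ => η) (𝓝[>] (0 : ℝ)) (𝓝 0) := nhdsWithin_le_nhds
  have hθ0 : Tendsto (fun η : ℝ => θ (pc * (1 + η))) (𝓝[>] 0) (𝓝 0) := by
    have h1 := hc.mul h0
    rw [mul_zero] at h1
    refine h1.congr' ?_
    filter_upwards [self_mem_nhdsWithin] with η hη
    exact div_mul_cancel₀ _ (ne_of_gt hη)
  have hlin : Tendsto (fun η : ℝ => pc * (1 + η)) (𝓝[>] 0) (𝓝 pc) := by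
    have := (h0.const_add 1).const_mul pc
    simpa using this
  have hev : ∀ᶠ η in 𝓝[>] (0 : ℝ), Real.exp 1 * (1 - θ (pc * (1 + η))) ≤
      (Real.exp 1 - 1) * ((θ (pc * (1 + η)) / η) * (1 - pc * (1 + η))) := by
    filter_upwards [self_mem_nhdsWithin, hlin.eventually (gt_mem_nhds hpc1)] with η hη hη1
    have hη' : 0 < η := hη
    have h1 := main η hη' hη1
    have h2 : η * (Real.exp 1 * (1 - θ (pc * (1 + η)))) ≤
        η * ((Real.exp 1 - 1) * ((θ (pc * (1 + η)) / η) * (1 - pc * (1 + η)))) := by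
      have h3 : η * ((Real.exp 1 - 1) * ((θ (pc * (1 + η)) / η) * (1 - pc * (1 + η)))) =
          (Real.exp 1 - 1) * (θ (pc * (1 + η)) * (1 - pc * (1 + η))) := by
        field_simp
      rw [h3]; nlinarith
    exact le_of_mul_le_mul_left h2 hη'
  have hL := (hθ0.const_sub 1).const_mul (Real.exp 1)
  have hR := (hc.mul (hlin.const_sub 1)).const_mul (Real.exp 1 - 1)
  have hfin := le_of_tendsto_of_tendsto hL hR hev
  rw [sub_zero, mul_one] at hfin
  have h1pc : 0 < 1 - pc := by linarith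
  have he1 : 0 < Real.exp 1 - 1 := by linarith
  rw [div_le_iff₀ (by positivity)]
  nlinarith

end Pool.Agent.Results.MP_29e17e_pr.DerivLower
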